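import Mathlib

set_option autoImplicit false

namespace Pool.H656.Dist

open Polynomial

variable {A : Type} [Ring A]

/-- elementwise form of left distributivity -/
def LD (A : Type) [Ring A] : Prop :=
  ∀ a b : A, ∃ p c d : A, p * a = c * b ∧ (1 - p) * b = d * a

/-- lattice distributivity of left ideals gives the elementwise form -/
theorem ld_of_lattice (h : ∀ X Y Z : Submodule A A, X ⊓ (Y ⊔ Z) = X ⊓ Y ⊔ X ⊓ Z) : LD A := by
  intro a b
  have h1 : a + b ∈ Submodule.span A {a + b} ⊓ (Submodule.span A {a} ⊔ Submodule.span A {b}) :=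
    ⟨Submodule.mem_span_singleton_self _, Submodule.add_mem _
      (Submodule.mem_sup_left (Submodule.mem_span_singleton_self _))
      (Submodule.mem_sup_right (Submodule.mem_span_singleton_self _))⟩
  rw [h] at h1
  obtain ⟨u, hu, v, hv, huv⟩ := Submodule.mem_sup.1 h1
  obtain ⟨⟨x, hx⟩, ⟨r, hr⟩⟩ :=
    And.intro (Submodule.mem_span_singleton.1 hu.1) (Submodule.mem_span_singleton.1 hu.2)
  obtain ⟨⟨y, hy⟩, ⟨r', hr'⟩⟩ :=
    And.intro (Submodule.mem_span_singleton.1 hv.1) (Submodule.mem_span_singleton.1 hv.2)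
  simp only [smul_eq_mul] at hx hr hy hr'
  have h2 : x * b = (r - x) * a := by
    have : x * (a + b) = r * a := hx.trans hr.symm
    rw [mul_add] at this
    rw [sub_mul]
    exact eq_sub_of_add_eq' this
  have h3 : y * a = (r' - y) * b := by
    have : y * (a + b) = r' * b := hy.trans hr'.symm
    rw [mul_add] at this
    rw [sub_mul]
    exact eq_sub_of_add_eq this
  have h4 : (1 - x - y) * a = - ((1 - x - y) * b) := by
    have : (x + y) * (a + b) = a + b := by rw [add_mul, hx, hy, huv]
    have h5 : (1 - x - y) * (a + b) = 0 := by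
      have : (1 - x - y) * (a + b) = (a + b) - (x + y) * (a + b) := by noncomm_ring
      rw [this, ‹(x + y) * (a + b) = a + b›, sub_self]
    rw [mul_add] at h5
    exact eq_neg_of_add_eq_zero_left h5
  refine ⟨y + (1 - x - y), (r' - y) - (1 - x - y), r - x, ?_, ?_⟩
  · rw [add_mul, h3, h4, ← sub_eq_add_neg, ← sub_mul]
  · have : 1 - (y + (1 - x - y)) = x := by abel
    rw [this, h2]

/-- a maximal left ideal of a left distributive ring is two-sided -/
theorem two_sided (hA : LD A) (M : Ideal A) (hM : M.IsMaximal) {m x : A} (hm : m ∈ M) :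
    m * x ∈ M := by
  have key : ∀ z : A, z ∉ M → ∀ w : A, ∃ t : A, ∃ n ∈ M, t * z + n = w := by
    intro z hz w
    have h1 : Ideal.span {z} ⊔ M = ⊤ := by
      by_contra hne
      have h2 := hM.eq_of_le hne le_sup_right
      exact hz (by rw [h2]; exact Ideal.mem_sup_left (Ideal.mem_span_singleton_self z))
    have h2 : w ∈ Ideal.span {z} ⊔ M := by rw [h1]; trivial
    obtain ⟨u, hu, n, hn, h3⟩ := Submodule.mem_sup.1 h2
    obtain ⟨t, ht⟩ := Ideal.mem_span_singleton'.1 hu
    exact ⟨t, n, hn, by rw [ht, h3]⟩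
  have h1M : (1 : A) ∉ M := fun h => hM.ne_top ((Ideal.eq_top_iff_one M).2 h)
  by_contra hmx
  have hx : x ∉ M := fun h => hmx (M.mul_mem_left m h)
  obtain ⟨θ, m0, hm0, hθ⟩ := key x hx 1
  -- an element of `M'` outside `M`
  have hex : ∃ e0 : A, e0 * x ∈ M ∧ e0 ∉ M := by
    obtain ⟨t, m1, hm1, ht⟩ := key (m * x) hmx x
    refine ⟨1 - t * m, ?_, ?_⟩
    · have : (1 - t * m) * x = m1 := by
        rw [sub_mul, one_mul, mul_assoc]
        exact sub_eq_of_eq_add' ht.symm
      rw [this]; exact hm1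
    · intro h
      have h2 : (1 - t * m) + t * m ∈ M := M.add_mem h (M.mul_mem_left t hm)
      rw [sub_add_cancel] at h2
      exact h1M h2
  obtain ⟨e0, he0, he0M⟩ := hex
  obtain ⟨t, e', he', hte⟩ := key e0 he0M 1
  set e : A := t * e0 with he
  have hex : e * x ∈ M := by rw [he, mul_assoc]; exact M.mul_mem_left _ he0
  have hee : e' = 1 - e := by rw [← hte]; abel
  obtain ⟨p, c, d, h1, h2⟩ := hA e (e + θ * e')
  have hθx : θ * x = 1 - m0 := by rw [← hθ]; abel
  have hbx : ∀ r : A, r * (e + θ * e') * x - r ∈ M := by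
    intro r
    have h3 : r * (e + θ * e') * x - r = r * (e * x) - (r * θ) * (e * x) - r * m0 := by
      rw [hee]
      have : r * (e + θ * (1 - e)) * x - r = r * (e * x) - (r * θ) * (e * x) + (r * (θ * x) - r) := by
        noncomm_ring
      rw [this, hθx]
      noncomm_ring
    rw [h3]
    exact M.sub_mem (M.sub_mem (M.mul_mem_left _ hex) (M.mul_mem_left _ hex)) (M.mul_mem_left _ hm0)
  have hc : c ∈ M := by
    have h3 : c * (e + θ * e') * x ∈ M := by
      rw [← h1, mul_assoc]; exact M.mul_mem_left _ hex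
    have h4 := M.sub_mem h3 (hbx c)
    simpa using h4
  have hb1 : ∀ r : A, r * (e + θ * e') - r ∈ M := by
    intro r
    have h3 : r * (e + θ * e') - r = (r * θ - r) * e' := by
      rw [hee]; noncomm_ring
    rw [h3]; exact M.mul_mem_left _ he'
  have hp : p ∈ M := by
    have h3 : p * e ∈ M := by
      rw [h1]
      have := M.add_mem (hb1 c) hc
      simpa using this
    have h4 : p = p * e + p * e' := by rw [hee]; noncomm_ring
    rw [h4]; exact M.add_mem h3 (M.mul_mem_left _ he')
  have hq : 1 - p ∈ M := by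
    have h3 : (1 - p) * (e + θ * e') * x ∈ M := by
      rw [h2, mul_assoc]; exact M.mul_mem_left _ hex
    have h4 := M.sub_mem h3 (hbx (1 - p))
    simpa using h4
  have h5 := M.add_mem hq hp
  rw [sub_add_cancel] at h5
  exact h1M h5

section local_

variable (hA : LD A) (M : Ideal A) (hM : M.IsMaximal)

include hM in
theorem one_nmem : (1 : A) ∉ M := fun h => hM.ne_top ((Ideal.eq_top_iff_one M).2 h)

include hM in
theorem key {z : A} (hz : z ∉ M) (w : A) : ∃ t : A, ∃ n ∈ M, t * z + n = w := by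
  have h1 : Ideal.span {z} ⊔ M = ⊤ := by
    by_contra hne
    have h2 := hM.eq_of_le hne le_sup_right
    exact hz (by rw [h2]; exact Ideal.mem_sup_left (Ideal.mem_span_singleton_self z))
  have h2 : w ∈ Ideal.span {z} ⊔ M := by rw [h1]; trivial
  obtain ⟨u, hu, n, hn, h3⟩ := Submodule.mem_sup.1 h2
  obtain ⟨t, ht⟩ := Ideal.mem_span_singleton'.1 hu
  exact ⟨t, n, hn, by rw [ht, h3]⟩

include hA hM in
theorem cprime {r s : A} (hr : r ∉ M) (hs : s ∉ M) : r * s ∉ M := by
  intro h
  obtain ⟨t, m, hm, ht⟩ := key M hM hr 1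
  have h1 : s = t * (r * s) + m * s := by
    rw [← mul_assoc, ← add_mul, ht, one_mul]
  rw [h1] at hs
  exact hs (M.add_mem (M.mul_mem_left _ h) (two_sided hA M hM hm))

include hA hM in
theorem ore (a : A) {s : A} (hs : s ∉ M) : ∃ t c : A, t ∉ M ∧ t * a = c * s := by
  obtain ⟨p, c, d, h1, h2⟩ := hA a s
  by_cases hp : p ∈ M
  · have hq : 1 - p ∉ M := fun h => one_nmem M hM (by
      have := M.add_mem h hp
      rwa [sub_add_cancel] at this)
    refine ⟨d, 1 - p, fun hd => ?_, h2.symm⟩
    exact cprime hA M hM hq hs (by rw [h2]; exact two_sided hA M hM hd)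
  · exact ⟨p, c, hp, h1⟩

/-- `z` is `δ` times the base element, locally and modulo the maximal ideal -/
def Rel (M : Ideal A) (y z δ : A) : Prop :=
  ∃ s W : A, s ∉ M ∧ s * z = W * y ∧ W - s * δ ∈ M

include hM in
theorem rel_self (y : A) : Rel M y y 1 :=
  ⟨1, 1, one_nmem M hM, rfl, by simp⟩

include hA hM in
theorem rel_add {y z δ z' δ' : A} (h : Rel M y z δ) (h' : Rel M y z' δ') :
    Rel M y (z + z') (δ + δ') := by
  obtain ⟨s, W, hs, h1, h2⟩ := h
  obtain ⟨s', W', hs', h1', h2'⟩ := h'
  obtain ⟨u, u', hu, huu⟩ := ore hA M hM s hs'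
  refine ⟨u * s, u * W + u' * W', cprime hA M hM hu hs, ?_, ?_⟩
  · rw [mul_add, mul_assoc, h1, huu, mul_assoc u' s', h1', add_mul, mul_assoc, mul_assoc]
  · have h3 : u * W + u' * W' - u * s * (δ + δ') = u * (W - s * δ) + u' * (W' - s' * δ') := by
      have : u * s * (δ + δ') = u * (s * δ) + u' * (s' * δ') := by
        rw [mul_add, mul_assoc, huu, mul_assoc u' s']
      rw [this]; noncomm_ring
    rw [h3]
    exact M.add_mem (M.mul_mem_left _ h2) (M.mul_mem_left _ h2')

theorem rel_smul {k : Type} [CommRing k] [Algebra k A] {y z δ : A} (κ : k) (h : Rel M y z δ) :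
    Rel M y (κ • z) (κ • δ) := by
  obtain ⟨s, W, hs, h1, h2⟩ := h
  refine ⟨s, κ • W, hs, ?_, ?_⟩
  · rw [mul_smul_comm, h1, smul_mul_assoc]
  · rw [mul_smul_comm, ← smul_sub, Algebra.smul_def]
    exact M.mul_mem_left _ h2

theorem rel_neg {y z δ : A} (h : Rel M y z δ) : Rel M y (-z) (-δ) := by
  obtain ⟨s, W, hs, h1, h2⟩ := h
  refine ⟨s, -W, hs, by rw [mul_neg, h1, neg_mul], ?_⟩
  have : -W - s * -δ = -(W - s * δ) := by rw [mul_neg]; abel
  rw [this]; exact M.neg_mem h2

include hA hM in
theorem rel_uniq {y z δ δ' : A} (h : Rel M y z δ) (h' : Rel M y z δ') (hne : δ - δ' ∉ M) :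
    ∃ W : A, W ∉ M ∧ W * y = 0 := by
  obtain ⟨s, W, hs, h1, h2⟩ := rel_add hA M hM h (rel_neg M h')
  refine ⟨W, fun hW => ?_, ?_⟩
  · have h3 : s * (δ + -δ') ∈ M := by
      have := M.sub_mem hW h2
      simpa using this
    rw [← sub_eq_add_neg] at h3
    exact cprime hA M hM hs hne h3
  · rw [← h1, add_neg_cancel, mul_zero]

include hA hM in
theorem rel_act {y z δ r ρ : A} (h : Rel M y z δ) (h' : Rel M y (y * r) ρ) :
    Rel M y (z * r) (δ * ρ) := by
  obtain ⟨s, W, hs, h1, h2⟩ := h
  obtain ⟨s', W', hs', h1', h2'⟩ := h'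
  obtain ⟨u, u', hu, huu⟩ := ore hA M hM W hs'
  refine ⟨u * s, u' * W', cprime hA M hM hu hs, ?_, ?_⟩
  · calc u * s * (z * r) = u * (s * z) * r := by noncomm_ring
      _ = u * W * (y * r) := by rw [h1]; noncomm_ring
      _ = u' * (s' * (y * r)) := by rw [huu]; noncomm_ring
      _ = u' * W' * y := by rw [h1']; noncomm_ring
  · have h3 : u' * W' - u * s * (δ * ρ) = u' * (W' - s' * ρ) + u * ((W - s * δ) * ρ) := by
      have : u' * (W' - s' * ρ) + u * ((W - s * δ) * ρ) =
          u' * W' - (u' * s') * ρ + (u * W) * ρ - u * s * (δ * ρ) := by noncomm_ring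
      rw [this, huu]; abel
    rw [h3]
    exact M.add_mem (M.mul_mem_left _ h2') (M.mul_mem_left _ (two_sided hA M hM h2))

include hA hM in
theorem rel_pull {y z δ z' q d : A} (h : Rel M y z δ) (hq : q ∉ M) (hd : d ∈ M)
    (he : q * z' = d * z) : Rel M y z' 0 := by
  obtain ⟨s, W, hs, h1, h2⟩ := h
  obtain ⟨u, u', hu, huu⟩ := ore hA M hM d hs
  have hu' : u' ∈ M := by
    by_contra hc
    exact cprime hA M hM hc hs (by rw [← huu]; exact M.mul_mem_left _ hd)
  refine ⟨u * q, u' * W, cprime hA M hM hu hq, ?_, ?_⟩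
  · calc u * q * z' = u * (q * z') := by noncomm_ring
      _ = (u * d) * z := by rw [he]; noncomm_ring
      _ = u' * (s * z) := by rw [huu]; noncomm_ring
      _ = u' * W * y := by rw [h1]; noncomm_ring
  · rw [mul_zero, sub_zero]
    exact two_sided hA M hM hu'

include hA hM in
theorem rel_exists {y z s W : A} (hs : s ∉ M) (h : s * z = W * y) : ∃ δ, Rel M y z δ := by
  obtain ⟨t, m, hm, ht⟩ := key M hM hs 1
  refine ⟨t * W, s, W, hs, h, ?_⟩
  -- `s t ≡ 1`
  have h1 : (s * t - 1) * s ∈ M := by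
    have : (s * t - 1) * s = - (s * m) := by
      have h2 : t * s = 1 - m := by rw [← ht]; abel
      have : (s * t - 1) * s = s * (t * s) - s := by noncomm_ring
      rw [this, h2]; noncomm_ring
    rw [this]; exact M.neg_mem (M.mul_mem_left _ hm)
  have h2 : s * t - 1 ∈ M := by
    by_contra hc
    exact cprime hA M hM hc hs h1
  have h3 : W - s * (t * W) = -((s * t - 1) * W) := by noncomm_ring
  rw [h3]; exact M.neg_mem (two_sided hA M hM h2)

end local_

/-- the main formula, left version -/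
theorem main_left (hA : LD A) {k : Type} [CommRing k] [Algebra k A] (φ : Polynomial k)
    (hφ : φ.Monic) (hdeg : φ.natDegree ≠ 0) (hu : ∀ x : A, IsUnit (aeval x φ)) (f g : A) :
    ∃ c : A, g * ((hu f).unit⁻¹ : Aˣ) * f = c * g := by
  classical
  set b : Aˣ := (hu f).unit with hb
  have hbv : (b : A) = aeval f φ := rfl
  have hcomm : (b : A) * f = f * (b : A) := by
    rw [hbv]
    have h1 : aeval f (φ * X) = aeval f (X * φ) := by rw [mul_comm]
    simpa using h1
  set y : A := g * (b⁻¹ : Aˣ) * f with hy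
  have hyb : y * aeval f φ = g * f := by
    rw [← hbv, hy, mul_assoc (g * _), ← hcomm, mul_assoc g, ← mul_assoc ((b⁻¹ : Aˣ) : A),
      Units.inv_mul, one_mul]
  by_contra hcon
  let I : Ideal A :=
    { carrier := {r | ∃ c : A, r * y = c * g}
      add_mem' := by
        rintro r r' ⟨c, hc⟩ ⟨c', hc'⟩
        exact ⟨c + c', by rw [add_mul, add_mul, hc, hc']⟩
      zero_mem' := ⟨0, by simp⟩
      smul_mem' := by
        rintro r r' ⟨c, hc⟩
        exact ⟨r * c, by rw [smul_eq_mul, mul_assoc, hc, mul_assoc]⟩ }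
  have hI1 : (1 : A) ∉ I := by
    rintro ⟨c, hc⟩
    exact hcon ⟨c, by rw [← hc, one_mul]⟩
  have hI : I ≠ ⊤ := fun h => hI1 (by rw [h]; trivial)
  obtain ⟨M, hM, hIM⟩ := Ideal.exists_le_maximal I hI
  have hzero : ∀ W : A, W * y = 0 → W ∈ M := fun W hW => hIM ⟨0, by rw [hW, zero_mul]⟩
  have h1M := one_nmem M hM
  -- `g` is `y` times a non-unit
  obtain ⟨q1, d1, hq1, hd1, hqd1⟩ : ∃ q d : A, q ∉ M ∧ d ∈ M ∧ q * g = d * y := by
    obtain ⟨p, c, d, h1, h2⟩ := hA y g
    have hp : p ∈ M := hIM ⟨c, h1⟩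
    have hq : 1 - p ∉ M := fun h => h1M (by
      have := M.add_mem h hp
      rwa [sub_add_cancel] at this)
    exact ⟨1 - p, d, hq, hIM ⟨1 - p, h2.symm⟩, h2⟩
  -- the case in which `f` acts on the local ideal generated by `y`
  have caseA : ∀ x : A, Rel M y (y * f) x → False := by
    intro x hx
    have hpow : ∀ i : ℕ, Rel M y (y * f ^ i) (x ^ i) := by
      intro i
      induction i with
      | zero => simpa using rel_self M hM y
      | succ i ih =>
        have := rel_act hA M hM ih hx
        rw [pow_succ, pow_succ, ← mul_assoc]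
        exact this
    have hpol : ∀ ψ : Polynomial k, Rel M y (y * aeval f ψ) (aeval x ψ) := by
      intro ψ
      induction ψ using Polynomial.induction_on' with
      | add p q hp hq =>
        rw [map_add, map_add, mul_add]
        exact rel_add hA M hM hp hq
      | monomial n a =>
        rw [aeval_monomial, aeval_monomial, ← Algebra.smul_def, ← Algebra.smul_def, mul_smul_comm]
        exact rel_smul M a (hpow n)
    have h1 := hpol φ
    rw [hyb] at h1
    have h2 : Rel M y g 0 := ⟨q1, d1, hq1, hqd1, by simpa using hd1⟩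
    have h3 := rel_act hA M hM h2 hx
    rw [zero_mul] at h3
    have h4 : aeval x φ - 0 ∉ M := by
      rw [sub_zero]
      intro h
      exact hM.ne_top (Ideal.eq_top_of_isUnit_mem M h (hu x))
    obtain ⟨W, hW, hW0⟩ := rel_uniq hA M hM h1 h3 h4
    exact hW (hzero W hW0)
  obtain ⟨p, c, d, h1, h2⟩ := hA (y * f) y
  by_cases hp : p ∈ M
  · have hq : 1 - p ∉ M := fun h => h1M (by
      have := M.add_mem h hp
      rwa [sub_add_cancel] at this)
    by_cases hd : d ∈ M
    · -- the local ideals generated by `y f ^ i` increase strictly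
      set n := φ.natDegree with hn
      have hdown : ∀ j : ℕ, j ≤ n → ∃ δ : A, Rel M (y * f ^ n) (y * f ^ (n - j)) δ ∧
          (j ≠ 0 → δ = 0) := by
        intro j
        induction j with
        | zero => exact fun _ => ⟨1, by simpa using rel_self M hM (y * f ^ n), fun h => (h rfl).elim⟩
        | succ j ih =>
          intro hj
          obtain ⟨δ, hδ, -⟩ := ih (by omega)
          refine ⟨0, ?_, fun _ => rfl⟩
          refine rel_pull hA M hM hδ hq hd ?_
          have : n - j = (n - (j + 1)) + 1 := by omega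
          rw [this, pow_succ', ← mul_assoc (1 - p) y, h2, mul_assoc, mul_assoc]
      have hlt : ∀ i : ℕ, i < n → Rel M (y * f ^ n) (y * f ^ i) 0 := by
        intro i hi
        obtain ⟨δ, hδ, h0⟩ := hdown (n - i) (by omega)
        rw [h0 (by omega), Nat.sub_sub_self hi.le] at hδ
        exact hδ
      have hsum : Rel M (y * f ^ n) (y * aeval f φ) 1 := by
        rw [aeval_eq_sum_range, ← hn, Finset.sum_range_succ, hn, hφ.coeff_natDegree, one_smul,
          ← hn, mul_add, Finset.mul_sum]
        have h3 : ∀ S : Finset ℕ, (∀ i ∈ S, i < n) →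
            Rel M (y * f ^ n) (∑ i ∈ S, y * φ.coeff i • f ^ i) 0 := by
          intro S
          induction S using Finset.induction_on with
          | empty =>
            intro _
            exact ⟨1, 0, h1M, by simp, by simp⟩
          | insert a S ha ih =>
            intro hS
            rw [Finset.sum_insert ha]
            have h4 := rel_smul M (φ.coeff a) (hlt a (hS a (Finset.mem_insert_self a S)))
            rw [smul_zero, ← mul_smul_comm] at h4
            have h5 := rel_add hA M hM h4 (ih fun i hi => hS i (Finset.mem_insert_of_mem hi))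
            simpa using h5
        have h4 := rel_add hA M hM (h3 (Finset.range n) fun i hi => Finset.mem_range.1 hi)
          (rel_self M hM (y * f ^ n))
        simpa using h4
      have hgf : Rel M (y * f ^ n) (g * f) 0 := by
        obtain ⟨δ, hδ, -⟩ := hdown (n - 1) (by omega)
        have h3 : n - (n - 1) = 1 := by omega
        rw [h3, pow_one] at hδ
        refine rel_pull hA M hM hδ hq1 hd1 ?_
        rw [← mul_assoc, hqd1, mul_assoc]
      rw [hyb] at hsum
      obtain ⟨W, hW, hW0⟩ := rel_uniq hA M hM hsum hgf (by rw [sub_zero]; exact h1M)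
      obtain ⟨δ, ⟨s, W1, hs, hs1, -⟩, -⟩ := hdown n le_rfl
      rw [Nat.sub_self, pow_zero, mul_one] at hs1
      obtain ⟨u, u', hu1, huu⟩ := ore hA M hM W1 hW
      refine cprime hA M hM hu1 hs (hzero _ ?_)
      rw [mul_assoc, hs1, ← mul_assoc, huu, mul_assoc, hW0, mul_zero]
    · obtain ⟨δ, hδ⟩ := rel_exists hA M hM hd h2.symm
      exact caseA δ hδ
  · obtain ⟨δ, hδ⟩ := rel_exists hA M hM hp h1
    exact caseA δ hδ

end Pool.H656.Dist
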