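import Mathlib
import Pool.Agent.H656.Dist.Left

set_option autoImplicit false

namespace Pool.H656.Dist

open Polynomial

variable {A : Type} [Ring A]

theorem rel_congr {M : Ideal A} {y z δ δ' : A} (h : Rel M y z δ) (hd : δ - δ' ∈ M) :
    Rel M y z δ' := by
  obtain ⟨s, W, hs, h1, h2⟩ := h
  refine ⟨s, W, hs, h1, ?_⟩
  have : W - s * δ' = (W - s * δ) + s * (δ - δ') := by noncomm_ring
  rw [this]
  exact M.add_mem h2 (M.mul_mem_left _ hd)

/-- local analysis with a linear polynomial -/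
theorem eigen (hA : LD A) {k : Type} [Field k] [Algebra k A] (κ : k) (hκ : κ ≠ 0)
    (M : Ideal A) (hM : M.IsMaximal) (f g y : A) (hyb : y * (1 - κ • f) = g * f)
    (hIM : ∀ r : A, (∃ c : A, r * y = c * g) → r ∈ M) :
    Rel M y (y * f) (algebraMap k A κ⁻¹) := by
  have hzero : ∀ W : A, W * y = 0 → W ∈ M := fun W hW => hIM W ⟨0, by rw [hW, zero_mul]⟩
  have h1M := one_nmem M hM
  obtain ⟨q1, d1, hq1, hd1, hqd1⟩ : ∃ q d : A, q ∉ M ∧ d ∈ M ∧ q * g = d * y := by
    obtain ⟨p, c, d, h1, h2⟩ := hA y g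
    have hp : p ∈ M := hIM p ⟨c, h1⟩
    have hq : 1 - p ∉ M := fun h => h1M (by
      have := M.add_mem h hp
      rwa [sub_add_cancel] at this)
    exact ⟨1 - p, d, hq, hIM d ⟨1 - p, h2.symm⟩, h2⟩
  have caseA : ∀ x : A, Rel M y (y * f) x → Rel M y (y * f) (algebraMap k A κ⁻¹) := by
    intro x hx
    by_contra hcon
    have h1 : Rel M y (y * (1 - κ • f)) (1 - κ • x) := by
      have h2 := rel_add hA M hM (rel_self M hM y) (rel_neg M (rel_smul M κ hx))
      have h3 : y + -(κ • (y * f)) = y * (1 - κ • f) := by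
        rw [mul_sub, mul_one, mul_smul_comm, sub_eq_add_neg]
      rwa [h3, ← sub_eq_add_neg] at h2
    rw [hyb] at h1
    have h2 : Rel M y g 0 := ⟨q1, d1, hq1, hqd1, by simpa using hd1⟩
    have h3 := rel_act hA M hM h2 hx
    rw [zero_mul] at h3
    by_cases h4 : (1 - κ • x) - 0 ∈ M
    · refine hcon (rel_congr hx ?_)
      have h5 : x - algebraMap k A κ⁻¹ = -(κ⁻¹ • (1 - κ • x - 0)) := by
        rw [sub_zero, smul_sub, smul_smul, inv_mul_cancel₀ hκ, one_smul, Algebra.smul_def, mul_one]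
        abel
      rw [h5, Algebra.smul_def]
      exact M.neg_mem (M.mul_mem_left _ h4)
    · obtain ⟨W, hW, hW0⟩ := rel_uniq hA M hM h1 h3 h4
      exact hW (hzero W hW0)
  obtain ⟨p, c, d, h1, h2⟩ := hA (y * f) y
  by_cases hp : p ∈ M
  · have hq : 1 - p ∉ M := fun h => h1M (by
      have := M.add_mem h hp
      rwa [sub_add_cancel] at this)
    by_cases hd : d ∈ M
    · exfalso
      -- base `y f`
      have hself := rel_self M hM (y * f)
      have hy0 : Rel M (y * f) y 0 := rel_pull hA M hM hself hq hd h2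
      have hgf : Rel M (y * f) (g * f) 0 := by
        refine rel_pull hA M hM hself hq1 hd1 ?_
        rw [← mul_assoc, hqd1, mul_assoc]
      have hsum : Rel M (y * f) (y * (1 - κ • f)) (-(algebraMap k A κ)) := by
        have h3 := rel_add hA M hM hy0 (rel_neg M (rel_smul M κ hself))
        have h4 : y + -(κ • (y * f)) = y * (1 - κ • f) := by
          rw [mul_sub, mul_one, mul_smul_comm, sub_eq_add_neg]
        have h5 : κ • (1 : A) = algebraMap k A κ := by rw [Algebra.smul_def, mul_one]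
        rw [h4, zero_add, h5] at h3
        exact h3
      rw [hyb] at hsum
      have hne : -(algebraMap k A κ) - 0 ∉ M := by
        intro h
        rw [sub_zero] at h
        have h3 := M.mul_mem_left (-(algebraMap k A κ⁻¹)) h
        rw [neg_mul_neg, ← map_mul, inv_mul_cancel₀ hκ, map_one] at h3
        exact h1M h3
      obtain ⟨W, hW, hW0⟩ := rel_uniq hA M hM hsum hgf hne
      obtain ⟨s, W1, hs, hs1, -⟩ := hy0
      obtain ⟨u, u', hu1, huu⟩ := ore hA M hM W1 hW
      refine cprime hA M hM hu1 hs (hzero _ ?_)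
      rw [mul_assoc, hs1, ← mul_assoc, huu, mul_assoc, hW0, mul_zero]
    · obtain ⟨δ, hδ⟩ := rel_exists hA M hM hd h2.symm
      exact caseA δ hδ
  · obtain ⟨δ, hδ⟩ := rel_exists hA M hM hp h1
    exact caseA δ hδ

/-- one half of the resolvent comparison -/
theorem half (hA : LD A) {k : Type} [Field k] [Algebra k A] {κ μ : k} (hne : κ ≠ μ) (hμ : μ ≠ 0)
    (M : Ideal A) (hM : M.IsMaximal) (f g v w : A)
    (hv1 : v * (1 - κ • f) = 1) (hv2 : (1 - κ • f) * v = 1)
    (hw1 : w * (1 - μ • f) = 1)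
    (hrel : Rel M (g * w * f) (g * w * f * f) (algebraMap k A μ⁻¹)) :
    Rel M (g * w * f) (g * v * f) 0 := by
  set y : A := g * w * f with hy
  have h2 : Rel M y (y * (1 - κ • f)) (algebraMap k A (1 - κ * μ⁻¹)) := by
    have h3 := rel_add hA M hM (rel_self M hM y) (rel_neg M (rel_smul M κ hrel))
    have h4 : y + -(κ • (y * f)) = y * (1 - κ • f) := by
      rw [mul_sub, mul_one, mul_smul_comm, sub_eq_add_neg]
    have h5 : 1 + -(κ • (algebraMap k A μ⁻¹)) = algebraMap k A (1 - κ * μ⁻¹) := by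
      rw [map_sub, map_one, map_mul, Algebra.smul_def, sub_eq_add_neg]
    rwa [h4, h5] at h3
  have hc : (1 - κ * μ⁻¹) ≠ 0 := by
    intro h
    apply hne
    have h3 : κ * μ⁻¹ = 1 := (sub_eq_zero.1 h).symm
    field_simp at h3
    exact h3
  have hcM : algebraMap k A (1 - κ * μ⁻¹) ∉ M := by
    intro h
    have h3 := M.mul_mem_left (algebraMap k A (1 - κ * μ⁻¹)⁻¹) h
    rw [← map_mul, inv_mul_cancel₀ hc, map_one] at h3
    exact one_nmem M hM h3
  have h3 : Rel M y (y * v) (algebraMap k A (1 - κ * μ⁻¹)⁻¹) := by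
    obtain ⟨s, W, hs, e1, e2⟩ := h2
    have hW : W ∉ M := by
      intro hW
      have h4 := M.sub_mem hW e2
      have h5 : W - (W - s * algebraMap k A (1 - κ * μ⁻¹)) = s * algebraMap k A (1 - κ * μ⁻¹) := by
        abel
      rw [h5] at h4
      exact cprime hA M hM hs hcM h4
    refine ⟨W, s, hW, ?_, ?_⟩
    · have h4 : s * (y * (1 - κ • f)) * v = W * y * v := by rw [e1]
      rw [mul_assoc, mul_assoc y, hv2, mul_one] at h4
      exact (mul_assoc W y v).symm.trans h4.symm
    · have h4 : s - W * algebraMap k A (1 - κ * μ⁻¹)⁻¹ =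
          -(algebraMap k A (1 - κ * μ⁻¹)⁻¹ * (W - s * algebraMap k A (1 - κ * μ⁻¹))) := by
        rw [mul_sub, ← mul_assoc, ← Algebra.commutes (1 - κ * μ⁻¹)⁻¹ W, Algebra.commutes _ s,
          mul_assoc s, ← map_mul, inv_mul_cancel₀ hc, map_one, mul_one,
          Algebra.commutes _ W]
        abel
      rw [h4]
      exact M.neg_mem (M.mul_mem_left _ e2)
  have h4 := rel_act hA M hM h3 hrel
  have h5 := rel_add hA M hM (rel_self M hM y) (rel_smul M (κ - μ) h4)
  have h6 : 1 + (κ - μ) • (algebraMap k A (1 - κ * μ⁻¹)⁻¹ * algebraMap k A μ⁻¹) = 0 := by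
    rw [← map_mul, Algebra.smul_def, ← map_mul, ← map_one (algebraMap k A), ← map_add]
    have h7 : 1 + (κ - μ) * ((1 - κ * μ⁻¹)⁻¹ * μ⁻¹) = 0 := by
      have h8 : μ - κ ≠ 0 := sub_ne_zero.2 (Ne.symm hne)
      have h9 : (1 - κ * μ⁻¹)⁻¹ * μ⁻¹ = (μ - κ)⁻¹ := by
        rw [← mul_inv]
        congr 1
        rw [sub_mul, one_mul, mul_assoc, inv_mul_cancel₀ hμ, mul_one]
      rw [h9]
      have h10 : κ - μ = -(μ - κ) := by ring
      rw [h10, neg_mul, mul_inv_cancel₀ h8]
      ring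
    rw [h7, map_zero]
  have h7 : y + (κ - μ) • (y * v * f) = g * v * f := by
    have h8 : (κ - μ) • f = (1 - μ • f) - (1 - κ • f) := by
      rw [sub_smul]; abel
    have h9 : v = w + (κ - μ) • (w * f * v) := by
      have : (κ - μ) • (w * f * v) = w * ((κ - μ) • f) * v := by
        rw [mul_smul_comm, smul_mul_assoc]
      rw [this, h8, mul_sub, hw1, sub_mul, one_mul, mul_assoc, hv2, mul_one]
      abel
    calc y + (κ - μ) • (y * v * f) = g * (w + (κ - μ) • (w * f * v)) * f := by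
          rw [hy, mul_add, add_mul, mul_smul_comm, smul_mul_assoc]
          congr 2
          noncomm_ring
      _ = g * v * f := by rw [← h9]
  rw [h6, h7] at h5
  exact h5

/-- two different scalars are not both bad at the same maximal ideal -/
theorem not_both (hA : LD A) {k : Type} [Field k] [Algebra k A] {κ μ : k} (hne : κ ≠ μ)
    (hκ : κ ≠ 0) (hμ : μ ≠ 0)
    (M : Ideal A) (hM : M.IsMaximal) (f g v w : A)
    (hv1 : v * (1 - κ • f) = 1) (hv2 : (1 - κ • f) * v = 1)
    (hw1 : w * (1 - μ • f) = 1) (hw2 : (1 - μ • f) * w = 1)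
    (hb1 : ∀ r : A, (∃ c : A, r * (g * v * f) = c * g) → r ∈ M)
    (hb2 : ∀ r : A, (∃ c : A, r * (g * w * f) = c * g) → r ∈ M) : False := by
  have comm : ∀ (ν : k) (u : A), u * (1 - ν • f) = 1 → (1 - ν • f) * u = 1 →
      g * u * f * (1 - ν • f) = g * f := by
    intro ν u h1 h2
    have h3 : f * (1 - ν • f) = (1 - ν • f) * f := by
      rw [mul_sub, sub_mul, mul_one, one_mul, mul_smul_comm, smul_mul_assoc]
    rw [mul_assoc, h3, mul_assoc g, ← mul_assoc u, h1, one_mul]
  have e1 := eigen hA κ hκ M hM f g _ (comm κ v hv1 hv2) hb1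
  have e2 := eigen hA μ hμ M hM f g _ (comm μ w hw1 hw2) hb2
  obtain ⟨s, W, hs, h1, h2⟩ := half hA hne hμ M hM f g v w hv1 hv2 hw1 e2
  obtain ⟨s', W', hs', h1', h2'⟩ := half hA (Ne.symm hne) hκ M hM f g w v hw1 hw2 hv1 e1
  rw [mul_zero, sub_zero] at h2 h2'
  obtain ⟨u, u', hu, huu⟩ := ore hA M hM W hs'
  have hu' : u' ∈ M := by
    by_contra hc
    exact cprime hA M hM hc hs' (by rw [← huu]; exact M.mul_mem_left _ h2)
  have h3 : (u * s - u' * W') * (g * v * f) = 0 := by
    rw [sub_mul, mul_assoc u s, h1, mul_assoc u' W', ← h1', ← mul_assoc u W, huu,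
      mul_assoc u' s', sub_self]
  have h4 : u * s - u' * W' ∈ M := hb1 _ ⟨0, by rw [h3, zero_mul]⟩
  have h5 : u * s ∈ M := by
    have := M.add_mem h4 (M.mul_mem_left u' h2')
    rwa [sub_add_cancel] at this
  exact cprime hA M hM hu hs h5

/-- an element outside all maximal left ideals is a unit -/
theorem unit_of (hA : LD A) (z : A) (hz : ∀ M : Ideal A, M.IsMaximal → z ∉ M) :
    ∃ t : A, t * z = 1 ∧ z * t = 1 := by
  have hleft : ∀ z : A, (∀ M : Ideal A, M.IsMaximal → z ∉ M) → ∃ t : A, t * z = 1 := by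
    intro z hz
    by_contra hcon
    have hI : Ideal.span {z} ≠ ⊤ := by
      intro ht
      have h1 : (1 : A) ∈ Ideal.span {z} := by rw [ht]; trivial
      exact hcon (Ideal.mem_span_singleton'.1 h1)
    obtain ⟨M, hM, hIM⟩ := Ideal.exists_le_maximal _ hI
    exact hz M hM (hIM (Ideal.mem_span_singleton_self z))
  obtain ⟨t, ht⟩ := hleft _ hz
  obtain ⟨v, hv⟩ := hleft t (fun M hM htM => by
    have h1 := two_sided hA M hM (x := z) htM
    rw [ht] at h1
    exact one_nmem M hM h1)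
  have h1 : v = z := by
    calc v = v * (t * z) := by rw [ht, mul_one]
      _ = z := by rw [← mul_assoc, hv, one_mul]
  rw [h1] at hv
  exact ⟨t, ht, hv⟩

open Cardinal in
/-- fewer maximal left ideals than scalars -/
theorem few_left (hA : LD A) {k : Type} [Field k] [Infinite k] [Algebra k A]
    (hcard : #{M : Ideal A // M.IsMaximal} < #k) (f g : A) :
    ∃ κ : k, κ ≠ 0 ∧ ∃ v c : A, v * (1 - κ • f) = 1 ∧ (1 - κ • f) * v = 1 ∧
      g * v * f = c * g := by
  classical
  by_contra hcon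
  push Not at hcon
  have hex : ∀ κ : {κ : k // κ ≠ 0}, ∃ P : {M : Ideal A // M.IsMaximal} × Bool,
      (P.2 = true → (1 - (κ : k) • f) ∈ P.1.1) ∧
      (P.2 = false → ∃ v : A, v * (1 - (κ : k) • f) = 1 ∧ (1 - (κ : k) • f) * v = 1 ∧
        ∀ r : A, (∃ c : A, r * (g * v * f) = c * g) → r ∈ P.1.1) := by
    intro κ
    by_cases hu : ∀ M : Ideal A, M.IsMaximal → (1 - (κ : k) • f) ∉ M
    · obtain ⟨v, hv1, hv2⟩ := unit_of hA _ hu
      let I : Ideal A :=
        { carrier := {r | ∃ c : A, r * (g * v * f) = c * g}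
          add_mem' := by
            rintro r r' ⟨c, hc⟩ ⟨c', hc'⟩
            exact ⟨c + c', by rw [add_mul, add_mul, hc, hc']⟩
          zero_mem' := ⟨0, by simp⟩
          smul_mem' := by
            rintro r r' ⟨c, hc⟩
            exact ⟨r * c, by rw [smul_eq_mul, mul_assoc, hc, mul_assoc]⟩ }
      have hI1 : (1 : A) ∉ I := by
        rintro ⟨c, hc⟩
        rw [one_mul] at hc
        exact hcon κ κ.2 v c hv1 hv2 hc
      have hI : I ≠ ⊤ := fun h => hI1 (by rw [h]; trivial)
      obtain ⟨M, hM, hIM⟩ := Ideal.exists_le_maximal I hI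
      exact ⟨(⟨M, hM⟩, false), by simp, fun _ => ⟨v, hv1, hv2, fun r hr => hIM hr⟩⟩
    · push Not at hu
      obtain ⟨M, hM, hMm⟩ := hu
      exact ⟨(⟨M, hM⟩, true), fun _ => hMm, by simp⟩
  choose F hF using hex
  have hinj : Function.Injective F := by
    intro κ μ hκμ
    by_contra hne
    have hne' : (κ : k) ≠ (μ : k) := fun h => hne (Subtype.ext h)
    rcases hb : (F κ).2 with _ | _
    · obtain ⟨v, hv1, hv2, hv3⟩ := (hF κ).2 hb
      obtain ⟨w, hw1, hw2, hw3⟩ := (hF μ).2 (by rw [← hκμ]; exact hb)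
      rw [← hκμ] at hw3
      exact not_both hA hne' κ.2 μ.2 _ (F κ).1.2 f g v w hv1 hv2 hw1 hw2 hv3 hw3
    · have h1 := (hF κ).1 hb
      have h2 := (hF μ).1 (by rw [← hκμ]; exact hb)
      rw [← hκμ] at h2
      have h3 := (F κ).1.1.sub_mem h1 h2
      have h4 : (1 - (κ : k) • f) - (1 - (μ : k) • f) = ((μ : k) - κ) • f := by
        rw [sub_smul]; abel
      rw [h4] at h3
      have hz : (μ : k) - κ ≠ 0 := sub_ne_zero.2 (Ne.symm hne')
      have h5 := (F κ).1.1.mul_mem_left (algebraMap k A (κ * ((μ : k) - κ)⁻¹)) h3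
      have h6 : algebraMap k A (κ * ((μ : k) - κ)⁻¹) * (((μ : k) - κ) • f) = (κ : k) • f := by
        rw [← Algebra.smul_def, smul_smul, mul_assoc, inv_mul_cancel₀ hz, mul_one]
      rw [h6] at h5
      have h7 := (F κ).1.1.add_mem h1 h5
      rw [sub_add_cancel] at h7
      exact one_nmem _ (F κ).1.2 h7
  have hk : ℵ₀ ≤ #k := Cardinal.aleph0_le_mk k
  have h1 : #{κ : k // κ ≠ 0} ≤ #({M : Ideal A // M.IsMaximal} × Bool) := Cardinal.mk_le_of_injective hinj
  have h2 : #({M : Ideal A // M.IsMaximal} × Bool) < #k := by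
    rw [Cardinal.mk_prod, Cardinal.lift_id, Cardinal.lift_id]
    refine Cardinal.mul_lt_of_lt hk hcard ?_
    rw [Cardinal.mk_bool]
    exact (Cardinal.natCast_lt_aleph0 (n := 2)).trans_le hk
  have h3 : #k ≤ #{κ : k // κ ≠ 0} + 1 := by
    have h4 : #k ≤ #(Option {κ : k // κ ≠ 0}) := by
      refine Cardinal.mk_le_of_injective
        (f := fun κ : k => if h : κ = 0 then none else some ⟨κ, h⟩) ?_
      intro a b hab
      by_cases ha : a = 0 <;> by_cases hb : b = 0
      · rw [ha, hb]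
      · simp [ha, hb] at hab
      · simp [ha, hb] at hab
      · simpa [ha, hb] using hab
    rwa [Cardinal.mk_option] at h4
  have h4 : #{κ : k // κ ≠ 0} + 1 < #k :=
    Cardinal.add_lt_of_lt hk (h1.trans_lt h2) ((Cardinal.one_lt_aleph0).trans_le hk)
  exact absurd h3 (not_le.2 h4)

end Pool.H656.Dist
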