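import Mathlib
import Pool.Agent.H656.Dist.Few

set_option autoImplicit false

namespace Pool.H656.Dist

open Polynomial

variable {A : Type} [Ring A]

theorem rel_poly (hA : LD A) {k : Type} [CommRing k] [Algebra k A] (M : Ideal A)
    (hM : M.IsMaximal) {y f x : A} (hx : Rel M y (y * f) x) (ψ : Polynomial k) :
    Rel M y (y * aeval f ψ) (aeval x ψ) := by
  have hpow : ∀ i : ℕ, Rel M y (y * f ^ i) (x ^ i) := by
    intro i
    induction i with
    | zero => simpa using rel_self M hM y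
    | succ i ih =>
      have := rel_act hA M hM ih hx
      rw [pow_succ, pow_succ, ← mul_assoc]
      exact this
  induction ψ using Polynomial.induction_on' with
  | add p q hp hq =>
    rw [map_add, map_add, mul_add]
    exact rel_add hA M hM hp hq
  | monomial n a =>
    rw [aeval_monomial, aeval_monomial, ← Algebra.smul_def, ← Algebra.smul_def, mul_smul_comm]
    exact rel_smul M a (hpow n)

/-- local analysis with a monic polynomial -/
theorem eigenP (hA : LD A) {k : Type} [CommRing k] [Algebra k A] (φ : Polynomial k)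
    (hφ : φ.Monic) (hdeg : φ.natDegree ≠ 0) (M : Ideal A) (hM : M.IsMaximal) (f g y : A)
    (hyb : y * aeval f φ = g * f) (hIM : ∀ r : A, (∃ c : A, r * y = c * g) → r ∈ M) :
    ∃ x : A, Rel M y (y * f) x ∧ aeval x φ ∈ M := by
  have hzero : ∀ W : A, W * y = 0 → W ∈ M := fun W hW => hIM W ⟨0, by rw [hW, zero_mul]⟩
  have h1M := one_nmem M hM
  obtain ⟨q1, d1, hq1, hd1, hqd1⟩ : ∃ q d : A, q ∉ M ∧ d ∈ M ∧ q * g = d * y := by
    obtain ⟨p, c, d, h1, h2⟩ := hA y g
    have hp : p ∈ M := hIM p ⟨c, h1⟩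
    have hq : 1 - p ∉ M := fun h => h1M (by
      have := M.add_mem h hp
      rwa [sub_add_cancel] at this)
    exact ⟨1 - p, d, hq, hIM d ⟨1 - p, h2.symm⟩, h2⟩
  have caseA : ∀ x : A, Rel M y (y * f) x → aeval x φ ∈ M := by
    intro x hx
    have h1 := rel_poly hA M hM hx φ
    rw [hyb] at h1
    have h2 : Rel M y g 0 := ⟨q1, d1, hq1, hqd1, by simpa using hd1⟩
    have h3 := rel_act hA M hM h2 hx
    rw [zero_mul] at h3
    by_contra h4
    obtain ⟨W, hW, hW0⟩ := rel_uniq hA M hM h1 h3 (by rwa [sub_zero])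
    exact hW (hzero W hW0)
  obtain ⟨p, c, d, h1, h2⟩ := hA (y * f) y
  by_cases hp : p ∈ M
  · have hq : 1 - p ∉ M := fun h => h1M (by
      have := M.add_mem h hp
      rwa [sub_add_cancel] at this)
    by_cases hd : d ∈ M
    · exfalso
      set n := φ.natDegree with hn
      have hdown : ∀ j : ℕ, j ≤ n → ∃ δ : A, Rel M (y * f ^ n) (y * f ^ (n - j)) δ ∧
          (j ≠ 0 → δ = 0) := by
        intro j
        induction j with
        | zero => exact fun _ => ⟨1, by simpa using rel_self M hM (y * f ^ n), fun h => (h rfl).elim⟩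
        | succ j ih =>
          intro hj
          obtain ⟨δ, hδ, -⟩ := ih (by omega)
          refine ⟨0, ?_, fun _ => rfl⟩
          refine rel_pull hA M hM hδ hq hd ?_
          have : n - j = (n - (j + 1)) + 1 := by omega
          rw [this, pow_succ', ← mul_assoc (1 - p) y, h2, mul_assoc, mul_assoc]
      have hlt : ∀ i : ℕ, i < n → Rel M (y * f ^ n) (y * f ^ i) 0 := by
        intro i hi
        obtain ⟨δ, hδ, h0⟩ := hdown (n - i) (by omega)
        rw [h0 (by omega), Nat.sub_sub_self hi.le] at hδ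
        exact hδ
      have hsum : Rel M (y * f ^ n) (y * aeval f φ) 1 := by
        rw [aeval_eq_sum_range, ← hn, Finset.sum_range_succ, hn, hφ.coeff_natDegree, one_smul,
          ← hn, mul_add, Finset.mul_sum]
        have h3 : ∀ S : Finset ℕ, (∀ i ∈ S, i < n) →
            Rel M (y * f ^ n) (∑ i ∈ S, y * φ.coeff i • f ^ i) 0 := by
          intro S
          induction S using Finset.induction_on with
          | empty =>
            intro _
            exact ⟨1, 0, h1M, by simp, by simp⟩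
          | insert a S ha ih =>
            intro hS
            rw [Finset.sum_insert ha]
            have h4 := rel_smul M (φ.coeff a) (hlt a (hS a (Finset.mem_insert_self a S)))
            rw [smul_zero, ← mul_smul_comm] at h4
            have h5 := rel_add hA M hM h4 (ih fun i hi => hS i (Finset.mem_insert_of_mem hi))
            simpa using h5
        have h4 := rel_add hA M hM (h3 (Finset.range n) fun i hi => Finset.mem_range.1 hi)
          (rel_self M hM (y * f ^ n))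
        simpa using h4
      have hgf : Rel M (y * f ^ n) (g * f) 0 := by
        obtain ⟨δ, hδ, -⟩ := hdown (n - 1) (by omega)
        have h3 : n - (n - 1) = 1 := by omega
        rw [h3, pow_one] at hδ
        refine rel_pull hA M hM hδ hq1 hd1 ?_
        rw [← mul_assoc, hqd1, mul_assoc]
      rw [hyb] at hsum
      obtain ⟨W, hW, hW0⟩ := rel_uniq hA M hM hsum hgf (by rw [sub_zero]; exact h1M)
      obtain ⟨δ, ⟨s, W1, hs, hs1, -⟩, -⟩ := hdown n le_rfl
      rw [Nat.sub_self, pow_zero, mul_one] at hs1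
      obtain ⟨u, u', hu1, huu⟩ := ore hA M hM W1 hW
      refine cprime hA M hM hu1 hs (hzero _ ?_)
      rw [mul_assoc, hs1, ← mul_assoc, huu, mul_assoc, hW0, mul_zero]
    · obtain ⟨δ, hδ⟩ := rel_exists hA M hM hd h2.symm
      exact ⟨δ, hδ, caseA δ hδ⟩
  · obtain ⟨δ, hδ⟩ := rel_exists hA M hM hp h1
    exact ⟨δ, hδ, caseA δ hδ⟩

theorem comm_f {k : Type} [CommRing k] [Algebra k A] (φ : Polynomial k) (f : A) :
    Commute (aeval f φ) f := by
  have h1 : aeval f (φ * X) = aeval f (X * φ) := by rw [mul_comm]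
  show aeval f φ * f = f * aeval f φ
  simpa using h1

theorem comm_p {k : Type} [CommRing k] [Algebra k A] (φ ψ : Polynomial k) (f : A) :
    Commute (aeval f φ) (aeval f ψ) := by
  show aeval f φ * aeval f ψ = aeval f ψ * aeval f φ
  rw [← map_mul, ← map_mul, mul_comm]

/-- comparison of two coprime polynomials -/
theorem halfP (hA : LD A) {k : Type} [CommRing k] [Algebra k A] (φ ψ : Polynomial k)
    (hco : IsCoprime φ ψ) (M : Ideal A) (hM : M.IsMaximal) (f g z : A) (b c : Aˣ)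
    (hb : (b : A) = aeval f φ) (hc : (c : A) = aeval f ψ)
    (hz : Rel M (g * (c⁻¹ : Aˣ) * f) (g * (c⁻¹ : Aˣ) * f * f) z) (hzM : aeval z ψ ∈ M) :
    Rel M (g * (c⁻¹ : Aˣ) * f) (g * (b⁻¹ : Aˣ) * f) 0 := by
  set y : A := g * (c⁻¹ : Aˣ) * f with hy
  have h1 := rel_poly hA M hM hz φ
  have h2 := rel_poly hA M hM hz ψ
  have hφz : aeval z φ ∉ M := by
    intro h
    obtain ⟨u, v, huv⟩ := hco
    have h3 : (1 : A) = aeval z u * aeval z φ + aeval z v * aeval z ψ := by
      rw [← map_mul, ← map_mul, ← map_add, huv, map_one]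
    exact one_nmem M hM (by
      rw [h3]; exact M.add_mem (M.mul_mem_left _ h) (M.mul_mem_left _ hzM))
  obtain ⟨s, W, hs, e1, e2⟩ := h1
  have hW : W ∉ M := by
    intro hW
    have h4 := M.sub_mem hW e2
    have h5 : W - (W - s * aeval z φ) = s * aeval z φ := by abel
    rw [h5] at h4
    exact cprime hA M hM hs hφz h4
  have e3 : W * (y * (b⁻¹ : Aˣ)) = s * y := by
    rw [← mul_assoc, ← e1, ← hb, mul_assoc, mul_assoc y, Units.mul_inv, mul_one]
  obtain ⟨δ, hδ⟩ := rel_exists hA M hM hW e3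
  have h3 := rel_act hA M hM hδ h2
  have h4 : y * (b⁻¹ : Aˣ) * aeval f ψ = g * (b⁻¹ : Aˣ) * f := by
    have c1 : Commute ((b⁻¹ : Aˣ) : A) f := by
      have : Commute (b : A) f := by rw [hb]; exact comm_f φ f
      exact this.units_inv_left
    have c2 : Commute ((b⁻¹ : Aˣ) : A) (c : A) := by
      have : Commute (b : A) (c : A) := by rw [hb, hc]; exact comm_p φ ψ f
      exact this.units_inv_left
    have c3 : Commute (c : A) f := by rw [hc]; exact comm_f ψ f
    rw [← hc, hy]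
    calc g * (c⁻¹ : Aˣ) * f * (b⁻¹ : Aˣ) * c = g * (c⁻¹ : Aˣ) * (f * ((b⁻¹ : Aˣ) * c)) := by
          noncomm_ring
      _ = g * (c⁻¹ : Aˣ) * (f * (c * (b⁻¹ : Aˣ))) := by rw [c2.eq]
      _ = g * (c⁻¹ : Aˣ) * ((f * c) * (b⁻¹ : Aˣ)) := by rw [mul_assoc f]
      _ = g * (c⁻¹ : Aˣ) * ((c * f) * (b⁻¹ : Aˣ)) := by rw [c3.eq]
      _ = g * (((c⁻¹ : Aˣ) * c) * (f * (b⁻¹ : Aˣ))) := by noncomm_ring
      _ = g * (f * (b⁻¹ : Aˣ)) := by rw [Units.inv_mul, one_mul]
      _ = g * (b⁻¹ : Aˣ) * f := by rw [← c1.eq, mul_assoc]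
  rw [h4] at h3
  exact rel_congr h3 (by rw [sub_zero]; exact M.mul_mem_left _ hzM)

/-- two coprime monic polynomials are not both bad at the same maximal ideal -/
theorem not_bothP (hA : LD A) {k : Type} [CommRing k] [Algebra k A] (φ ψ : Polynomial k)
    (hφ : φ.Monic) (hφd : φ.natDegree ≠ 0) (hψ : ψ.Monic) (hψd : ψ.natDegree ≠ 0)
    (hco : IsCoprime φ ψ) (M : Ideal A) (hM : M.IsMaximal) (f g : A) (b c : Aˣ)
    (hb : (b : A) = aeval f φ) (hc : (c : A) = aeval f ψ)
    (hb1 : ∀ r : A, (∃ d : A, r * (g * (b⁻¹ : Aˣ) * f) = d * g) → r ∈ M)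
    (hb2 : ∀ r : A, (∃ d : A, r * (g * (c⁻¹ : Aˣ) * f) = d * g) → r ∈ M) : False := by
  have comm : ∀ (χ : Polynomial k) (u : Aˣ), (u : A) = aeval f χ →
      g * (u⁻¹ : Aˣ) * f * aeval f χ = g * f := by
    intro χ u hu
    have h3 : f * (u : A) = u * f := by rw [hu]; exact (comm_f χ f).eq.symm
    rw [← hu, mul_assoc, h3, mul_assoc g, ← mul_assoc ((u⁻¹ : Aˣ) : A), Units.inv_mul, one_mul]
  obtain ⟨x, hx, hxM⟩ := eigenP hA φ hφ hφd M hM f g _ (comm φ b hb) hb1
  obtain ⟨z, hz, hzM⟩ := eigenP hA ψ hψ hψd M hM f g _ (comm ψ c hc) hb2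
  obtain ⟨s, W, hs, h1, h2⟩ := halfP hA φ ψ hco M hM f g z b c hb hc hz hzM
  obtain ⟨s', W', hs', h1', h2'⟩ := halfP hA ψ φ hco.symm M hM f g x c b hc hb hx hxM
  rw [mul_zero, sub_zero] at h2 h2'
  obtain ⟨u, u', hu, huu⟩ := ore hA M hM W hs'
  have hu' : u' ∈ M := by
    by_contra hc
    exact cprime hA M hM hc hs' (by rw [← huu]; exact M.mul_mem_left _ h2)
  have h3 : (u * s - u' * W') * (g * (b⁻¹ : Aˣ) * f) = 0 := by
    rw [sub_mul, mul_assoc u s, h1, mul_assoc u' W', ← h1', ← mul_assoc u W, huu,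
      mul_assoc u' s', sub_self]
  have h4 : u * s - u' * W' ∈ M := hb1 _ ⟨0, by rw [h3, zero_mul]⟩
  have h5 : u * s ∈ M := by
    have := M.add_mem h4 (M.mul_mem_left u' h2')
    rwa [sub_add_cancel] at this
  exact cprime hA M hM hu hs h5

open Cardinal in
/-- the general counting statement -/
theorem gen_left (hA : LD A) {k : Type} [CommRing k] [Algebra k A] (Φ : Set (Polynomial k))
    (hΦ : ∀ φ ∈ Φ, φ.Monic ∧ φ.natDegree ≠ 0) (hpw : Φ.Pairwise IsCoprime)
    (hcard : 2 * #{M : Ideal A // M.IsMaximal ∧ ∃ φ ∈ Φ, ∃ x : A, aeval x φ ∈ M} < #Φ) (f g : A) :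
    ∃ φ ∈ Φ, ∃ v c : A, v * aeval f φ = 1 ∧ aeval f φ * v = 1 ∧ g * v * f = c * g := by
  classical
  by_contra hcon
  push Not at hcon
  have hdeg : ∀ φ ∈ Φ, φ.natDegree ≠ 0 := fun φ h => (hΦ φ h).2
  have hex : ∀ φ : Φ, ∃ P : {M : Ideal A // M.IsMaximal ∧ ∃ φ ∈ Φ, ∃ x : A, aeval x φ ∈ M} × Bool,
      (P.2 = true → aeval f (φ : Polynomial k) ∈ P.1.1) ∧
      (P.2 = false → ∃ b : Aˣ, (b : A) = aeval f (φ : Polynomial k) ∧
        ∀ r : A, (∃ c : A, r * (g * (b⁻¹ : Aˣ) * f) = c * g) → r ∈ P.1.1) := by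
    intro φ
    by_cases hu : ∀ M : Ideal A, M.IsMaximal → aeval f (φ : Polynomial k) ∉ M
    · obtain ⟨v, hv1, hv2⟩ := unit_of hA _ hu
      let b : Aˣ := ⟨aeval f (φ : Polynomial k), v, hv2, hv1⟩
      let I : Ideal A :=
        { carrier := {r | ∃ c : A, r * (g * v * f) = c * g}
          add_mem' := by
            rintro r r' ⟨c, hc⟩ ⟨c', hc'⟩
            exact ⟨c + c', by rw [add_mul, add_mul, hc, hc']⟩
          zero_mem' := ⟨0, by simp⟩
          smul_mem' := by
            rintro r r' ⟨c, hc⟩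
            exact ⟨r * c, by rw [smul_eq_mul, mul_assoc, hc, mul_assoc]⟩ }
      have hI1 : (1 : A) ∉ I := by
        rintro ⟨c, hc⟩
        rw [one_mul] at hc
        exact hcon φ φ.2 v c hv1 hv2 hc
      have hI : I ≠ ⊤ := fun h => hI1 (by rw [h]; trivial)
      obtain ⟨M, hM, hIM⟩ := Ideal.exists_le_maximal I hI
      have hyb : g * v * f * aeval f (φ : Polynomial k) = g * f := by
        have h3 : f * aeval f (φ : Polynomial k) = aeval f (φ : Polynomial k) * f :=
          (comm_f (φ : Polynomial k) f).eq.symm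
        rw [mul_assoc, h3, mul_assoc g, ← mul_assoc v, hv1, one_mul]
      obtain ⟨x, -, hxM⟩ := eigenP hA (φ : Polynomial k) (hΦ φ φ.2).1 (hdeg φ φ.2) M hM f g _ hyb
        (fun r hr => hIM hr)
      exact ⟨(⟨M, hM, φ, φ.2, x, hxM⟩, false), by simp, fun _ => ⟨b, rfl, fun r hr => hIM hr⟩⟩
    · push Not at hu
      obtain ⟨M, hM, hMm⟩ := hu
      exact ⟨(⟨M, hM, φ, φ.2, f, hMm⟩, true), fun _ => hMm, by simp⟩
  choose F hF using hex
  have hinj : Function.Injective F := by
    intro φ ψ hκμ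
    by_contra hne
    have hne' : (φ : Polynomial k) ≠ (ψ : Polynomial k) := fun h => hne (Subtype.ext h)
    have hco : IsCoprime (φ : Polynomial k) (ψ : Polynomial k) := hpw φ.2 ψ.2 hne'
    rcases hb : (F φ).2 with _ | _
    · obtain ⟨b, hb1, hb2⟩ := (hF φ).2 hb
      obtain ⟨c, hc1, hc2⟩ := (hF ψ).2 (by rw [← hκμ]; exact hb)
      rw [← hκμ] at hc2
      exact not_bothP hA _ _ (hΦ φ φ.2).1 (hdeg φ φ.2) (hΦ ψ ψ.2).1 (hdeg ψ ψ.2) hco _
        (F φ).1.2.1 f g b c hb1 hc1 hb2 hc2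
    · have h1 := (hF φ).1 hb
      have h2 := (hF ψ).1 (by rw [← hκμ]; exact hb)
      rw [← hκμ] at h2
      obtain ⟨u, v, huv⟩ := hco
      have h3 : (1 : A) = aeval f u * aeval f (φ : Polynomial k) +
          aeval f v * aeval f (ψ : Polynomial k) := by
        rw [← map_mul, ← map_mul, ← map_add, huv, map_one]
      exact one_nmem _ (F φ).1.2.1 (by
        rw [h3]; exact Ideal.add_mem _ (Ideal.mul_mem_left _ _ h1) (Ideal.mul_mem_left _ _ h2))
  have h1 := Cardinal.mk_le_of_injective hinj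
  rw [Cardinal.mk_prod, Cardinal.lift_id, Cardinal.lift_id, Cardinal.mk_bool, mul_comm] at h1
  exact absurd h1 (not_le.2 hcard)

end Pool.H656.Dist
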